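import Pool.Agent.helper39.MT.Defs

set_option autoImplicit false

/-!
# Module FI2: from forms in standard position to all admissible systems of linear forms
-/

namespace Pool.Agent.helper39.MT

open Finset

/-- Chinese remainder theorem for integers and prime powers. -/
theorem co1_crt_int (S : Finset ℕ) (hS : ∀ p ∈ S, p.Prime) (s : ℕ) (n : ℕ → ℤ) :
    ∃ v : ℕ, ∀ p ∈ S, ((p ^ s : ℕ) : ℤ) ∣ (v : ℤ) - n p := by
  have hpp : Set.Pairwise (S : Set ℕ) (Function.onFun Nat.Coprime (fun p => p ^ s)) := by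
    intro p hp q hq hpq
    exact Nat.Coprime.pow _ _ ((Nat.coprime_primes (hS p hp) (hS q hq)).mpr hpq)
  obtain ⟨v, hv⟩ := Nat.chineseRemainderOfFinset (fun p => (n p % ((p ^ s : ℕ) : ℤ)).toNat)
    (fun p => p ^ s) S (fun p hp => pow_ne_zero _ (hS p hp).ne_zero) hpp
  refine ⟨v, fun p hp => ?_⟩
  have h1 := hv p hp
  have hpos : ((p ^ s : ℕ) : ℤ) ≠ 0 := by
    exact_mod_cast pow_ne_zero _ (hS p hp).ne_zero
  have h2 : (v : ℤ) ≡ (((n p % ((p ^ s : ℕ) : ℤ)).toNat : ℕ) : ℤ) [ZMOD ((p ^ s : ℕ) : ℤ)] :=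
    Int.natCast_modEq_iff.mpr h1
  rw [Int.toNat_of_nonneg (Int.emod_nonneg _ hpos)] at h2
  have h3 : (v : ℤ) ≡ n p [ZMOD ((p ^ s : ℕ) : ℤ)] := h2.trans (Int.mod_modEq _ _)
  exact (Int.modEq_iff_dvd.mp h3.symm)

/-- FI2: **Maynard-Tao** for linear forms, from the statement of FI1. -/
theorem maynard_tao_of (r : ℕ)
    (hstd : ∃ k D₀ : ℕ, 2 ≤ k ∧ ∀ (A B : Fin k → ℕ) (W : ℕ), Std k D₀ A B W →
      ∀ N : ℕ, ∃ n ≥ N, r < #{i : Fin k | (A i * n + B i).Prime}) :
    ∃ k : ℕ, 2 ≤ k ∧ ∀ (A : Fin k → ℕ) (B : Fin k → ℤ), (∀ i, 0 < A i) →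
    (∀ i j, i ≠ j → (A i : ℤ) * B j ≠ A j * B i) →
    (∀ p : ℕ, p.Prime → ∃ n : ℕ, ∀ i, ¬ (p : ℤ) ∣ A i * n + B i) →
    ∀ N : ℕ, ∃ n ≥ N, r < #{i : Fin k | ((A i : ℤ) * n + B i).toNat.Prime} := by
  obtain ⟨k, D₀, hk, hmain⟩ := hstd
  refine ⟨k, hk, fun A B hA hdet hadm N => ?_⟩
  -- the modulus
  set M : ℕ := D₀ + ∑ i, A i + ∑ i, ∑ j, ((A i : ℤ) * B j - A j * B i).natAbs with hM
  have hMA : ∀ i, A i ≤ M := by
    intro i
    have := Finset.single_le_sum (f := A) (fun j _ => Nat.zero_le _) (Finset.mem_univ i)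
    omega
  have hMdet : ∀ i j, ((A i : ℤ) * B j - A j * B i).natAbs ≤ M := by
    intro i j
    have h1 := Finset.single_le_sum
      (f := fun j => ((A i : ℤ) * B j - A j * B i).natAbs) (fun j _ => Nat.zero_le _)
      (Finset.mem_univ j)
    have h2 := Finset.single_le_sum
      (f := fun i => ∑ j, ((A i : ℤ) * B j - A j * B i).natAbs) (fun j _ => Nat.zero_le _)
      (Finset.mem_univ i)
    have h3 := h1.trans h2
    omega
  set P : Finset ℕ := (Finset.range (M + 1)).filter Nat.Prime with hP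
  have hPmem : ∀ p, p ∈ P ↔ p ≤ M ∧ p.Prime := by
    intro p
    simp only [hP, Finset.mem_filter, Finset.mem_range]
    constructor
    · rintro ⟨h1, h2⟩; exact ⟨by omega, h2⟩
    · rintro ⟨h1, h2⟩; exact ⟨by omega, h2⟩
  set W : ℕ := ∏ p ∈ P, p with hW
  have hWpos : 0 < W := Finset.prod_pos fun p hp => ((hPmem p).mp hp).2.pos
  have hdvdW : ∀ p : ℕ, p.Prime → (p ∣ W ↔ p ≤ M) := by
    intro p hp
    constructor
    · intro h
      obtain ⟨q, hq, hpq⟩ := (Prime.dvd_finsetProd_iff hp.prime _).mp h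
      have h1 := (Nat.prime_dvd_prime_iff_eq hp ((hPmem q).mp hq).2).mp hpq
      rw [h1]
      exact ((hPmem q).mp hq).1
    · intro h
      exact Finset.dvd_prod_of_mem _ ((hPmem p).mpr ⟨h, hp⟩)
  -- the residue class
  have hchoose : ∀ p : ℕ, ∃ n : ℤ, p.Prime → ∀ i, ¬ (p : ℤ) ∣ A i * n + B i := by
    intro p
    by_cases hp : p.Prime
    · obtain ⟨n, hn⟩ := hadm p hp
      exact ⟨n, fun _ => hn⟩
    · exact ⟨0, fun h => absurd h hp⟩
  choose nn hnn using hchoose
  obtain ⟨v₁, hv₁⟩ := co1_crt_int P (fun p hp => ((hPmem p).mp hp).2) 1 nn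
  -- make it large
  set v : ℕ := v₁ + W * (∑ i, (B i).natAbs + 1) with hv
  have hvpos : ∀ i, 0 < (A i : ℤ) * v + B i := by
    intro i
    have h1 : (B i).natAbs ≤ ∑ i, (B i).natAbs :=
      Finset.single_le_sum (f := fun i => (B i).natAbs) (fun j _ => Nat.zero_le _)
        (Finset.mem_univ i)
    have h2 : (B i).natAbs + 1 ≤ v := by
      have h3 : ∑ i, (B i).natAbs + 1 ≤ W * (∑ i, (B i).natAbs + 1) :=
        Nat.le_mul_of_pos_left _ hWpos
      omega
    have h3 : v ≤ A i * v := Nat.le_mul_of_pos_left _ (hA i)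
    have h4 : (B i).natAbs + 1 ≤ A i * v := h2.trans h3
    have h5 : (((B i).natAbs : ℕ) : ℤ) + 1 ≤ (A i : ℤ) * v := by exact_mod_cast h4
    have h6 : -(((B i).natAbs : ℕ) : ℤ) ≤ B i := by
      rw [Int.natCast_natAbs]
      exact neg_abs_le _
    linarith
  have hvcop : ∀ p ∈ P, ∀ i, ¬ (p : ℤ) ∣ A i * v + B i := by
    intro p hp i hdiv
    have hpp := ((hPmem p).mp hp)
    refine hnn p hpp.2 i ?_
    have h1 := hv₁ p hp
    rw [pow_one] at h1
    have h2 : (p : ℤ) ∣ (W : ℤ) := by exact_mod_cast (hdvdW p hpp.2).mpr hpp.1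
    have h3 : (A i : ℤ) * nn p + B i
        = (A i * v + B i) - A i * (((v₁ : ℤ) - nn p) + W * (∑ i, (B i).natAbs + 1)) := by
      rw [hv]
      push_cast
      ring
    rw [h3]
    exact dvd_sub hdiv ((dvd_add h1 (h2.mul_right _)).mul_left _)
  -- the new forms
  have hB' : ∀ i, (((A i : ℤ) * v + B i).toNat : ℤ) = A i * v + B i :=
    fun i => Int.toNat_of_nonneg (hvpos i).le
  have hS : Std k D₀ (fun i => A i * W) (fun i => ((A i : ℤ) * v + B i).toNat) W := by
    refine ⟨fun i => Nat.mul_pos (hA i) hWpos, fun i => ?_, hWpos, ?_, ?_, ?_, ?_⟩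
    · have h1 := hvpos i
      have h2 := hB' i
      omega
    · intro p hp hpD
      exact (hdvdW p hp).mpr (by omega)
    · intro i p hp
      constructor
      · intro h
        rcases (Nat.Prime.dvd_mul hp).mp h with h1 | h1
        · exact (hdvdW p hp).mpr ((Nat.le_of_dvd (hA i) h1).trans (hMA i))
        · exact h1
      · intro h
        exact h.mul_left _
    · intro i
      refine Nat.Coprime.symm (Nat.Coprime.prod_left fun p hp => ?_)
      have hpp := ((hPmem p).mp hp).2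
      rw [hpp.coprime_iff_not_dvd]
      intro h
      refine hvcop p hp i ?_
      rw [← hB' i]
      exact_mod_cast h
    · intro i j hij p hp hd
      have h1 : (((A i * W : ℕ) : ℤ)) * (((A j : ℤ) * v + B j).toNat : ℤ)
          - (((A j * W : ℕ) : ℤ)) * (((A i : ℤ) * v + B i).toNat : ℤ)
          = W * ((A i : ℤ) * B j - A j * B i) := by
        rw [hB' i, hB' j]
        push_cast
        ring
      rw [h1] at hd
      have hpZ : Prime (p : ℤ) := Nat.prime_iff_prime_int.mp hp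
      rcases hpZ.dvd_or_dvd hd with h2 | h2
      · exact_mod_cast h2
      · have h3 : (A i : ℤ) * B j - A j * B i ≠ 0 := sub_ne_zero.mpr (hdet i j hij)
        have h4 : p ∣ ((A i : ℤ) * B j - A j * B i).natAbs := Int.natCast_dvd.mp h2
        have h5 := Nat.le_of_dvd (Int.natAbs_pos.mpr h3) h4
        exact (hdvdW p hp).mpr (h5.trans (hMdet i j))
  obtain ⟨n, hn, hcard⟩ := hmain _ _ W hS N
  refine ⟨W * n + v, ?_, ?_⟩
  · have : n ≤ W * n := Nat.le_mul_of_pos_left _ hWpos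
    omega
  · refine lt_of_lt_of_eq hcard ?_
    congr 1
    refine Finset.filter_congr fun i _ => ?_
    have h1 : ((A i : ℤ) * ((W * n + v : ℕ) : ℤ) + B i).toNat
        = A i * W * n + ((A i : ℤ) * v + B i).toNat := by
      have h2 : (A i : ℤ) * ((W * n + v : ℕ) : ℤ) + B i
          = ((A i * W * n + ((A i : ℤ) * v + B i).toNat : ℕ) : ℤ) := by
        push_cast
        rw [hB' i]
        ring
      rw [h2, Int.toNat_natCast]
    rw [h1]

end Pool.Agent.helper39.MT
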