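import Pool.Agent.helper14.MT.Defs2

set_option autoImplicit false

/-!
# Module SD1 of the model part: weighted sums over all finite sets
-/

namespace Pool.Agent.helper39.MT

open Finset

section SD1
variable {ι : Type*} [Fintype ι] [DecidableEq ι]

/-- `∑_{S ∋ p} f(S) w^S ≤ w_p ∑_S f(S) w^S` if adding `p` does not increase `f`. -/
private theorem sd1_mem_le {w : ι → ℝ} (hw : ∀ p, 0 ≤ w p) {f : Finset ι → ℝ} (hf : ∀ S, 0 ≤ f S)
    (p : ι) (hanti : ∀ S, p ∉ S → f (insert p S) ≤ f S) :
    SS w (fun S => if p ∈ S then f S else 0) ≤ w p * SS w f := by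
  unfold SS
  have hprod : ∀ S : Finset ι, 0 ≤ ∏ q ∈ S, w q := fun S => Finset.prod_nonneg fun q _ => hw q
  have h1 : ∑ S : Finset ι, (if p ∈ S then f S else 0) * ∏ q ∈ S, w q
      = ∑ S ∈ univ.filter (fun S : Finset ι => p ∈ S), f S * ∏ q ∈ S, w q := by
    rw [Finset.sum_filter]
    refine Finset.sum_congr rfl fun S _ => ?_
    split_ifs <;> simp
  rw [h1]
  have h2 : ∀ S ∈ univ.filter (fun S : Finset ι => p ∈ S), f S * ∏ q ∈ S, w q
      ≤ (fun S' : Finset ι => w p * (f S' * ∏ q ∈ S', w q)) (S.erase p) := by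
    intro S hS
    have hp : p ∈ S := (Finset.mem_filter.mp hS).2
    have h3 : insert p (S.erase p) = S := Finset.insert_erase hp
    have h4 : ∏ q ∈ S, w q = w p * ∏ q ∈ S.erase p, w q := (Finset.mul_prod_erase S w hp).symm
    have h5 := hanti (S.erase p) (Finset.notMem_erase p S)
    rw [h3] at h5
    rw [h4]
    calc f S * (w p * ∏ q ∈ S.erase p, w q) = w p * (f S * ∏ q ∈ S.erase p, w q) := by ring
      _ ≤ w p * (f (S.erase p) * ∏ q ∈ S.erase p, w q) :=
        mul_le_mul_of_nonneg_left (mul_le_mul_of_nonneg_right h5 (hprod _)) (hw p)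
  refine (Finset.sum_le_sum h2).trans ?_
  rw [← Finset.sum_image (f := fun S' : Finset ι => w p * (f S' * ∏ q ∈ S', w q))
    (g := fun S : Finset ι => S.erase p), Finset.mul_sum]
  · exact Finset.sum_le_sum_of_subset_of_nonneg (Finset.subset_univ _)
      fun S _ _ => mul_nonneg (hw p) (mul_nonneg (hf S) (hprod S))
  · intro S hS T hT hST
    simp only [Finset.coe_filter, Finset.mem_univ, true_and, Set.mem_ofPred_eq] at hS hT
    simp only at hST
    rw [← Finset.insert_erase hS, ← Finset.insert_erase hT, hST]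

/-- `∑_{S ∋ p} f(S) w^S ≤ w_p ∑_S f(S) w^S` for decreasing `f`. -/
theorem SS_mem_le {w : ι → ℝ} (hw : ∀ p, 0 ≤ w p) {f : Finset ι → ℝ} (hf : ∀ S, 0 ≤ f S)
    (hanti : ∀ S p, p ∉ S → f (insert p S) ≤ f S) (p : ι) :
    SS w (fun S => if p ∈ S then f S else 0) ≤ w p * SS w f :=
  sd1_mem_le hw hf p fun S hS => hanti S p hS

private theorem sd1_subset_le {w : ι → ℝ} (hw : ∀ p, 0 ≤ w p) {f : Finset ι → ℝ}
    (hf : ∀ S, 0 ≤ f S) (hanti : ∀ S p, p ∉ S → f (insert p S) ≤ f S) (T : Finset ι) :
    SS w (fun S => if T ⊆ S then f S else 0) ≤ (∏ q ∈ T, w q) * SS w f := by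
  induction T using Finset.induction_on with
  | empty => simp
  | insert p T hp ih =>
    rw [Finset.prod_insert hp, mul_assoc]
    have h1 := sd1_mem_le hw (f := fun S => if T ⊆ S then f S else 0)
      (fun S => by split_ifs <;> simp [hf]) p (fun S hS => by
        have h2 : T ⊆ insert p S ↔ T ⊆ S := by
          constructor
          · intro h x hx
            rcases Finset.mem_insert.mp (h hx) with h3 | h3
            · exact absurd (h3 ▸ hx) hp
            · exact h3
          · exact fun h => h.trans (Finset.subset_insert p S)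
        simp only [h2]
        split_ifs
        · exact hanti S p hS
        · exact le_refl _)
    have h3 : (fun S : Finset ι => if insert p T ⊆ S then f S else 0)
        = fun S : Finset ι => if p ∈ S then (if T ⊆ S then f S else 0) else 0 := by
      funext S
      simp only [Finset.insert_subset_iff]
      by_cases ha : p ∈ S <;> by_cases hb : T ⊆ S <;> simp [ha, hb]
    rw [h3]
    exact h1.trans (mul_le_mul_of_nonneg_left ih (hw p))

theorem SS_one_add_le {q : ι → ℝ} (hq : ∀ p, 0 ≤ q p) {f : Finset ι → ℝ} (hf : ∀ S, 0 ≤ f S)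
    (hanti : ∀ S p, p ∉ S → f (insert p S) ≤ f S) :
    SS (fun p => q p * (1 + q p)) f ≤ Real.exp (∑ p, q p ^ 2) * SS q f := by
  have hprod : ∀ S : Finset ι, 0 ≤ ∏ p ∈ S, q p := fun S => Finset.prod_nonneg fun p _ => hq p
  have hSS : 0 ≤ SS q f := Finset.sum_nonneg fun S _ => mul_nonneg (hf S) (hprod S)
  have h1 : SS (fun p => q p * (1 + q p)) f
      = ∑ T : Finset ι, (∏ p ∈ T, q p) * SS q (fun S => if T ⊆ S then f S else 0) := by
    unfold SS
    simp only [Finset.mul_sum]
    rw [Finset.sum_comm]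
    refine Finset.sum_congr rfl fun S _ => ?_
    rw [Finset.prod_mul_distrib, Finset.prod_one_add]
    have h2 : ∑ T ∈ S.powerset, ∏ p ∈ T, q p
        = ∑ T : Finset ι, if T ⊆ S then ∏ p ∈ T, q p else 0 := by
      rw [← Finset.sum_filter]
      refine Finset.sum_congr ?_ fun _ _ => rfl
      ext T
      simp
    rw [h2, Finset.mul_sum, Finset.mul_sum]
    refine Finset.sum_congr rfl fun T _ => ?_
    split_ifs <;> ring
  rw [h1]
  have h2 : ∀ T ∈ (univ : Finset (Finset ι)),
      (∏ p ∈ T, q p) * SS q (fun S => if T ⊆ S then f S else 0)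
        ≤ (∏ p ∈ T, q p ^ 2) * SS q f := by
    intro T _
    have h3 := mul_le_mul_of_nonneg_left (sd1_subset_le hq hf hanti T) (hprod T)
    refine h3.trans (le_of_eq ?_)
    rw [Finset.prod_pow]
    ring
  refine (Finset.sum_le_sum h2).trans ?_
  rw [← Finset.sum_mul]
  refine mul_le_mul_of_nonneg_right ?_ hSS
  have h4 : ∑ T : Finset ι, ∏ p ∈ T, q p ^ 2 = ∏ p : ι, (1 + q p ^ 2) := by
    rw [Finset.prod_one_add, Finset.powerset_univ]
  rw [h4, Real.exp_sum]
  refine Finset.prod_le_prod (fun p _ => by positivity) fun p _ => ?_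
  have := Real.add_one_le_exp (q p ^ 2)
  linarith

omit [Fintype ι] in
private theorem sd1_one_sub {c : ℝ} {q : ι → ℝ} (hc : 0 ≤ c) (hq : ∀ p, 0 ≤ q p)
    (hcq : ∀ p, c * q p ≤ 1) (S : Finset ι) :
    1 - c * ∑ p ∈ S, q p ≤ ∏ p ∈ S, (1 - c * q p) := by
  induction S using Finset.induction_on with
  | empty => simp
  | insert p S hp ih =>
    rw [Finset.sum_insert hp, Finset.prod_insert hp]
    have h1 : ∏ p ∈ S, (1 - c * q p) ≤ 1 := by
      refine Finset.prod_le_one (fun p _ => by linarith [hcq p]) fun p _ => ?_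
      have := mul_nonneg hc (hq p)
      linarith
    have h2 := mul_nonneg hc (hq p)
    have h3 : 0 ≤ ∏ p ∈ S, (1 - c * q p) :=
      Finset.prod_nonneg fun p _ => by linarith [hcq p]
    nlinarith

theorem SS_one_sub_ge {q : ι → ℝ} (hq : ∀ p, 0 ≤ q p) {f : Finset ι → ℝ} (hf : ∀ S, 0 ≤ f S)
    (hanti : ∀ S p, p ∉ S → f (insert p S) ≤ f S) {c : ℝ} (hc : 0 ≤ c) (hcq : ∀ p, c * q p ≤ 1) :
    (1 - c * ∑ p, q p ^ 2) * SS q f ≤ SS (fun p => q p * (1 - c * q p)) f := by
  have hprod : ∀ S : Finset ι, 0 ≤ ∏ p ∈ S, q p := fun S => Finset.prod_nonneg fun p _ => hq p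
  have h1 : ∑ S : Finset ι, f S * ((∏ p ∈ S, q p) * (1 - c * ∑ p ∈ S, q p))
      ≤ SS (fun p => q p * (1 - c * q p)) f := by
    unfold SS
    refine Finset.sum_le_sum fun S _ => ?_
    rw [Finset.prod_mul_distrib]
    exact mul_le_mul_of_nonneg_left
      (mul_le_mul_of_nonneg_left (sd1_one_sub hc hq hcq S) (hprod S)) (hf S)
  refine le_trans ?_ h1
  have h2 : ∑ S : Finset ι, f S * ((∏ p ∈ S, q p) * (1 - c * ∑ p ∈ S, q p))
      = SS q f - c * ∑ p, q p * SS q (fun S => if p ∈ S then f S else 0) := by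
    unfold SS
    simp only [Finset.mul_sum]
    rw [Finset.sum_comm, ← Finset.sum_sub_distrib]
    refine Finset.sum_congr rfl fun S _ => ?_
    have h3 : ∑ p ∈ S, c * q p = ∑ p : ι, c * (if p ∈ S then q p else 0) := by
      rw [← Finset.mul_sum, ← Finset.mul_sum, Finset.sum_ite_mem, Finset.univ_inter]
    rw [h3, mul_sub, mul_sub, Finset.mul_sum, Finset.mul_sum, mul_one]
    congr 1
    refine Finset.sum_congr rfl fun p _ => ?_
    split_ifs <;> ring
  rw [h2]
  have h4 : ∑ p, q p * SS q (fun S => if p ∈ S then f S else 0)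
      ≤ ∑ p, q p ^ 2 * SS q f := by
    refine Finset.sum_le_sum fun p _ => ?_
    have h5 := mul_le_mul_of_nonneg_left (SS_mem_le hq hf hanti p) (hq p)
    refine h5.trans (le_of_eq ?_)
    ring
  rw [← Finset.sum_mul] at h4
  have h6 := mul_le_mul_of_nonneg_left h4 hc
  linarith

/-- The sum over labellings is at most the sum over tuples of sets. -/
theorem sum_labels_le {k : ℕ} {b : ι → ℝ} (hb : ∀ p, 0 ≤ b p) {f : Finset ι → ℝ}
    (hf : ∀ S, 0 ≤ f S) :
    ∑ σ : ι → Option (Fin k), (∏ p, (if σ p = none then 1 else b p)) * ∏ i, f (cls σ i)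
      ≤ SS b f ^ k := by
  have h1 : SS b f ^ k = ∑ g : Fin k → Finset ι, ∏ i, (f (g i) * ∏ p ∈ g i, b p) := by
    have h2 : SS b f ^ k = ∏ _i : Fin k, ∑ S : Finset ι, f S * ∏ p ∈ S, b p := by
      rw [Finset.prod_const, Finset.card_univ, Fintype.card_fin]
      rfl
    rw [h2, Finset.prod_univ_sum, Fintype.piFinset_univ]
  have h3 : ∀ σ : ι → Option (Fin k), (∏ p, (if σ p = none then 1 else b p))
      = ∏ i : Fin k, ∏ p ∈ cls σ i, b p := by
    intro σ
    have h4 : ∀ p, (if σ p = none then 1 else b p)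
        = ∏ i : Fin k, (if σ p = some i then b p else 1) := by
      intro p
      rcases h : σ p with _ | i
      · simp
      · rw [if_neg (by simp), Finset.prod_eq_single i]
        · simp
        · intro j _ hj
          rw [if_neg]
          intro h5
          exact hj (Option.some.inj h5).symm
        · intro h5
          exact absurd (Finset.mem_univ _) h5
    rw [Finset.prod_congr rfl fun p _ => h4 p, Finset.prod_comm]
    refine Finset.prod_congr rfl fun i _ => ?_
    unfold cls
    rw [Finset.prod_filter]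
  have h5 : ∀ σ : ι → Option (Fin k),
      (∏ p, (if σ p = none then 1 else b p)) * ∏ i, f (cls σ i)
        = (fun g : Fin k → Finset ι => ∏ i, (f (g i) * ∏ p ∈ g i, b p)) (fun i => cls σ i) := by
    intro σ
    simp only
    rw [h3, Finset.prod_mul_distrib]
    ring
  rw [h1, Finset.sum_congr rfl fun σ _ => h5 σ,
    ← Finset.sum_image (f := fun g : Fin k → Finset ι => ∏ i, (f (g i) * ∏ p ∈ g i, b p))
      (g := fun σ : ι → Option (Fin k) => fun i => cls σ i)]
  · refine Finset.sum_le_sum_of_subset_of_nonneg (Finset.subset_univ _) fun g _ _ => ?_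
    exact Finset.prod_nonneg fun i _ => mul_nonneg (hf _) (Finset.prod_nonneg fun p _ => hb p)
  · intro σ _ τ _ h
    simp only at h
    funext p
    rcases hσ : σ p with _ | i
    · rcases hτ : τ p with _ | j
      · rfl
      · exfalso
        have h6 : p ∈ cls τ j := by simp [cls, hτ]
        rw [← congrFun h j] at h6
        simp [cls, hσ] at h6
    · have h6 : p ∈ cls σ i := by simp [cls, hσ]
      rw [congrFun h i] at h6
      simp only [cls, Finset.mem_filter, Finset.mem_univ, true_and] at h6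
      rw [h6]

end SD1

end Pool.Agent.helper39.MT
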