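import Pool.Agent.helper39.MT.Defs

set_option autoImplicit false

/-!
# Modules CO2, CO3: sets of Heath-Brown, and the necessary conditions
-/

namespace Pool.Agent.helper39.MT

open Finset

/-- CO2: sets with `h_j - h_i ∣ h_i` (Heath-Brown). -/
theorem heath_brown_set (k : ℕ) : ∃ h : Fin k → ℕ, StrictMono h ∧ (∀ i, 0 < h i) ∧
    ∀ i j, i < j → (h j - h i) ∣ h i ∧ (h j - h i) ∣ h j := by
  induction k with
  | zero => exact ⟨fun i => i.elim0, fun i => i.elim0, fun i => i.elim0, fun i => i.elim0⟩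
  | succ k ih =>
    obtain ⟨h, hmono, hpos, hdvd⟩ := ih
    set H : ℕ := ∏ i, h i with hH
    have hH1 : ∀ i, h i ∣ H := fun i => Finset.dvd_prod_of_mem h (Finset.mem_univ i)
    have hHpos : 0 < H := Finset.prod_pos fun i _ => hpos i
    refine ⟨Fin.cons H (fun i => H + h i), ?_, ?_, ?_⟩
    · intro i j hij
      induction i using Fin.cases with
      | zero =>
        induction j using Fin.cases with
        | zero => exact absurd hij (lt_irrefl _)
        | succ j =>
          simp only [Fin.cons_zero, Fin.cons_succ]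
          have := hpos j
          omega
      | succ i =>
        induction j using Fin.cases with
        | zero => exact absurd hij (by simp)
        | succ j =>
          simp only [Fin.cons_succ]
          have := hmono (Fin.succ_lt_succ_iff.mp hij)
          omega
    · intro i
      induction i using Fin.cases with
      | zero => simpa using hHpos
      | succ i => simp only [Fin.cons_succ]; omega
    · intro i j hij
      induction i using Fin.cases with
      | zero =>
        induction j using Fin.cases with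
        | zero => exact absurd hij (lt_irrefl _)
        | succ j =>
          simp only [Fin.cons_zero, Fin.cons_succ, Nat.add_sub_cancel_left]
          exact ⟨hH1 j, Dvd.dvd.add (hH1 j) dvd_rfl⟩
      | succ i =>
        induction j using Fin.cases with
        | zero => exact absurd hij (by simp)
        | succ j =>
          simp only [Fin.cons_succ, Nat.add_sub_add_left]
          obtain ⟨h1, h2⟩ := hdvd i j (Fin.succ_lt_succ_iff.mp hij)
          exact ⟨(h1.trans (hH1 i)).add h1, (h1.trans (hH1 i)).add h2⟩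

private theorem co3_fst {a b : ℕ} {c : ℤ} (hb : 0 < b) (p₀ : ℕ) :
    {pq : ℕ × ℕ | pq.1 = p₀ ∧ (a : ℤ) * pq.1 - b * pq.2 = c}.Finite := by
  refine Set.Subsingleton.finite ?_
  rintro ⟨p, q⟩ ⟨h1, h2⟩ ⟨p', q'⟩ ⟨h3, h4⟩
  simp only at h1 h2 h3 h4
  subst h1
  subst h3
  have h5 : (b : ℤ) * q = b * q' := by linarith
  have h6 : (q : ℤ) = q' := mul_left_cancel₀ (by exact_mod_cast hb.ne') h5
  have h7 : q = q' := by exact_mod_cast h6
  rw [h7]

private theorem co3_snd {a b : ℕ} {c : ℤ} (ha : 0 < a) (q₀ : ℕ) :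
    {pq : ℕ × ℕ | pq.2 = q₀ ∧ (a : ℤ) * pq.1 - b * pq.2 = c}.Finite := by
  refine Set.Subsingleton.finite ?_
  rintro ⟨p, q⟩ ⟨h1, h2⟩ ⟨p', q'⟩ ⟨h3, h4⟩
  simp only at h1 h2 h3 h4
  subst h1
  subst h3
  have h5 : (a : ℤ) * p = a * p' := by linarith
  have h6 : (p : ℤ) = p' := mul_left_cancel₀ (by exact_mod_cast ha.ne') h5
  have h7 : p = p' := by exact_mod_cast h6
  rw [h7]

/-- CO3: infinitely many solutions force the conditions of the question. -/
theorem InfSol.conditions {a b : ℕ} {c : ℤ} (ha : 0 < a) (hb : 0 < b) (hc : c ≠ 0)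
    (hab : Nat.Coprime a b) (h : InfSol a b c) :
    IsCoprime (a : ℤ) c ∧ IsCoprime (b : ℤ) c ∧ ¬ (Odd (a : ℤ) ∧ Odd (b : ℤ) ∧ Odd c) := by
  refine ⟨?_, ?_, ?_⟩
  · by_contra hcop
    rw [Int.isCoprime_iff_gcd_eq_one] at hcop
    obtain ⟨l, hl, hd⟩ := Nat.exists_prime_and_dvd hcop
    have h1 : (l : ℤ) ∣ a := (Int.natCast_dvd_natCast.mpr hd).trans (Int.gcd_dvd_left _ _)
    have h2 : (l : ℤ) ∣ c := (Int.natCast_dvd_natCast.mpr hd).trans (Int.gcd_dvd_right _ _)
    refine h ((co3_snd (a := a) (b := b) (c := c) ha l).subset ?_)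
    rintro ⟨p, q⟩ ⟨hp, hq, he⟩
    simp only at hp hq he
    refine ⟨?_, he⟩
    have h3 : (l : ℤ) ∣ (b : ℤ) * q := by
      have h4 : (b : ℤ) * q = a * p - c := by linarith
      rw [h4]
      exact dvd_sub (h1.mul_right _) h2
    have h5 : l ∣ b * q := by exact_mod_cast h3
    have h6 : l ∣ a := by exact_mod_cast h1
    rcases (Nat.Prime.dvd_mul hl).mp h5 with h7 | h7
    · exact absurd (Nat.dvd_gcd h6 h7) (by rw [hab]; exact hl.one_lt.ne' ∘ Nat.dvd_one.mp)
    · exact ((Nat.prime_dvd_prime_iff_eq hl hq).mp h7).symm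
  · by_contra hcop
    rw [Int.isCoprime_iff_gcd_eq_one] at hcop
    obtain ⟨l, hl, hd⟩ := Nat.exists_prime_and_dvd hcop
    have h1 : (l : ℤ) ∣ b := (Int.natCast_dvd_natCast.mpr hd).trans (Int.gcd_dvd_left _ _)
    have h2 : (l : ℤ) ∣ c := (Int.natCast_dvd_natCast.mpr hd).trans (Int.gcd_dvd_right _ _)
    refine h ((co3_fst (a := a) (b := b) (c := c) hb l).subset ?_)
    rintro ⟨p, q⟩ ⟨hp, hq, he⟩
    simp only at hp hq he
    refine ⟨?_, he⟩
    have h3 : (l : ℤ) ∣ (a : ℤ) * p := by
      have h4 : (a : ℤ) * p = b * q + c := by linarith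
      rw [h4]
      exact dvd_add (h1.mul_right _) h2
    have h5 : l ∣ a * p := by exact_mod_cast h3
    have h6 : l ∣ b := by exact_mod_cast h1
    rcases (Nat.Prime.dvd_mul hl).mp h5 with h7 | h7
    · exact absurd (Nat.dvd_gcd h7 h6) (by rw [hab]; exact hl.one_lt.ne' ∘ Nat.dvd_one.mp)
    · exact ((Nat.prime_dvd_prime_iff_eq hl hp).mp h7).symm
  · rintro ⟨oa, ob, oc⟩
    refine h (((co3_fst (a := a) (b := b) (c := c) hb 2).union
      (co3_snd (a := a) (b := b) (c := c) ha 2)).subset ?_)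
    rintro ⟨p, q⟩ ⟨hp, hq, he⟩
    simp only at hp hq he
    rcases hp.eq_two_or_odd' with hp2 | hp2
    · exact Or.inl ⟨hp2, he⟩
    · rcases hq.eq_two_or_odd' with hq2 | hq2
      · exact Or.inr ⟨hq2, he⟩
      · exfalso
        have e1 : Odd ((p : ℤ)) := by exact_mod_cast hp2
        have e2 : Odd ((q : ℤ)) := by exact_mod_cast hq2
        have e3 : Even ((a : ℤ) * p - b * q) := (oa.mul e1).sub_odd (ob.mul e2)
        rw [he] at e3
        exact (Int.not_even_iff_odd.mpr oc) e3

end Pool.Agent.helper39.MT
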